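import Pool.Agent.H95.DR.Targets
import Pool.Agent.H35.CF.PDE1

/-!
# (ORTr) orthogonality of the characters on the lines and the times
-/

set_option autoImplicit false

open MeasureTheory Set Filter NumberField
open scoped Real nonZeroDivisors Matrix MatrixGroups
open Pool.Agent.H31.CN Pool.Agent.H89.FM Pool.Agent.H61.FM Pool.Agent.H89.FC Pool.Agent.H95.FC
open Pool.Agent.H89.DF Pool.Agent.H95.DR

namespace Pool.Agent.H66.DF

section

variable {K : Type} [Field K] [NumberField K] {D f : ℕ} {σ σ' : K →+* ℝ}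

theorem lt_ne {Q : QF} {T : Finset (ℤ × ℤ)} {W : ℤ × ℤ → ℤ × ℤ} (h : LT f Q T W) {V : ℤ × ℤ}
    (hV : V ∈ T) : V ≠ 0 := by
  intro h0
  have h1 := h.one V hV
  rw [h0] at h1
  simp [Pool.Agent.H89.FM.det] at h1

theorem pr_b {I : (Ideal (𝓞 K))⁰} {α β : 𝓞 K} {Q : QF} {b : ℤ × ℤ → (Ideal (𝓞 K))⁰}
    (h : VBr I α β Q b) {V : ℤ × ℤ} (hV : V ≠ 0) (hu : Uv f Q V) :
    Pool.Agent.H95.CF.Pr K f (b V : Ideal (𝓞 K)) := by
  refine Pool.Agent.H35.CF.pr_norm (nonZeroDivisors.coe_ne_zero _) ?_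
  have h1 := h.nrm V hV
  unfold nm at h1
  rw [h1]
  rcases abs_choice (val Q V) with h2 | h2
  · rw [h2]; exact hu
  · rw [h2]; exact IsCoprime.neg_left hu

/-- the integral over the period vanishes -/
theorem int_zero {P ν ν' : ℝ} (hne : ν ≠ ν')
    (h1 : Complex.exp (((ν * P : ℝ) : ℂ) * Complex.I) = 1)
    (h2 : Complex.exp (((ν' * P : ℝ) : ℂ) * Complex.I) = 1) :
    ∫ τ in (0 : ℝ)..P, Complex.exp (-((((ν - ν') * τ : ℝ) : ℂ) * Complex.I)) = 0 := by
  have hc : (-(((ν - ν' : ℝ) : ℂ) * Complex.I)) ≠ 0 := by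
    rw [neg_ne_zero]
    refine mul_ne_zero ?_ Complex.I_ne_zero
    rw [Complex.ofReal_ne_zero]
    exact sub_ne_zero.2 hne
  have e : ∀ τ : ℝ, Complex.exp (-((((ν - ν') * τ : ℝ) : ℂ) * Complex.I)) =
      Complex.exp ((-(((ν - ν' : ℝ) : ℂ) * Complex.I)) * (τ : ℂ)) := by
    intro τ
    congr 1
    push_cast
    ring
  simp_rw [e]
  rw [integral_exp_mul_complex hc]
  have h3 : Complex.exp ((-(((ν - ν' : ℝ) : ℂ) * Complex.I)) * (P : ℂ)) = 1 := by
    have e2 : (-(((ν - ν' : ℝ) : ℂ) * Complex.I)) * (P : ℂ) =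
        ((ν' * P : ℝ) : ℂ) * Complex.I - ((ν * P : ℝ) : ℂ) * Complex.I := by
      push_cast
      ring
    rw [e2, Complex.exp_sub, h1, h2]
    simp
  rw [h3]
  simp

/-- the product of the values of two characters with the same infinity type -/
theorem rtr_mul (hTYR : T_TYR) (κ : ℕ) (ν : ℝ) (ψ ψ' : Ideal (𝓞 K) → ℂ)
    (b : ℤ × ℤ → (Ideal (𝓞 K))⁰) (α β : 𝓞 K) (V : ℤ × ℤ) (h0 : lv K α β V ≠ 0) :
    rtr σ σ' κ ν ψ b α β V * (starRingEnd ℂ) (rtr σ σ' κ ν ψ' b α β V) =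
      ψ (b V) * (starRingEnd ℂ) (ψ' (b V)) := by
  have h1 := (hTYR K σ σ' κ ν).2.1 _ h0
  unfold rtr
  set t := tyr σ σ' κ ν (lv K α β V) with ht
  have ht0 : t ≠ 0 := by
    intro h
    rw [h] at h1
    simp at h1
  have h2 : t * (starRingEnd ℂ) t = 1 := by
    rw [Complex.mul_conj, Complex.normSq_eq_norm_sq, h1]
    simp
  have h3 : t⁻¹ * ((starRingEnd ℂ) t)⁻¹ = 1 := by
    rw [← mul_inv, h2, inv_one]
  rw [map_mul, map_inv₀]
  calc ψ (b V) * t⁻¹ * ((starRingEnd ℂ) (ψ' (b V)) * ((starRingEnd ℂ) t)⁻¹)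
      = ψ (b V) * (starRingEnd ℂ) (ψ' (b V)) * (t⁻¹ * ((starRingEnd ℂ) t)⁻¹) := by ring
    _ = _ := by rw [h3, mul_one]

end

open Classical in
theorem pf_ORTr (hRGE : Pool.Agent.H37.CF.T_RGE) (hCHXr : T_CHXr) (hFBRr : T_FBRr)
    (hCNTr : T_CNTr) (hRHOr : T_RHOr) (hLC1r : T_LC1r) (hTYR : T_TYR)
    (hPRN : Pool.Agent.H95.CF.T_PRN) : T_ORTr := by
  intro K _ _ D f σ σ' hK R κ ν ν' ψ ψ' h h'
  have hf : 1 ≤ f := h.pos
  have hJ : ∀ j ∈ R.J, j.2 ∈ R.T j.1 := by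
    intro j hj
    unfold DD.J at hj
    exact (Finset.mem_sigma.1 hj).2
  have hlv : ∀ c, ∀ V ∈ R.T c, lv K (R.α c) (R.β c) V ≠ 0 := fun c V hV h0 =>
    lt_ne (R.lt c) hV ((R.ob c).inj V h0)
  have hpr : ∀ c, ∀ V ∈ R.T c, Pool.Agent.H95.CF.Pr K f (R.b c V : Ideal (𝓞 K)) :=
    fun c V hV => pr_b (R.vb c) (lt_ne (R.lt c) hV) ((R.lt c).un V hV)
  refine ⟨?_, ?_⟩
  · intro j hj
    have hV := hJ j hj
    exact (hRHOr K σ σ' f κ ν ψ (R.I j.1) (R.α j.1) (R.β j.1) (R.Q j.1) (R.b j.1) (R.ob j.1)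
      (R.vb j.1) h).2.1 j.2 (lt_ne (R.lt j.1) hV) ((R.lt j.1).un _ hV)
  · intro hne
    by_cases hν : ν = ν'
    · subst hν
      have hsum : ∑ j ∈ R.J, R.ρ κ ν ψ j.1 j.2 * (starRingEnd ℂ) (R.ρ κ ν ψ' j.1 j.2) = 0 := by
        obtain ⟨G, _, _, cl, hG⟩ := hRGE K f hf
        have := Fintype.ofFinite G
        obtain ⟨φ, hφ⟩ := hCHXr K σ σ' f κ ν ψ' ψ G cl hG h' h
        have hφ1 : φ ≠ 1 := by
          intro h1
          apply hne
          funext I
          by_cases hI : Pool.Agent.H95.CF.Pr K f I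
          · rw [hφ I hI, h1]
            simp
          · rw [h.van I hI, h'.van I hI]
        obtain ⟨g₀, hg₀⟩ : ∃ g₀, φ g₀ ≠ 1 := by
          by_contra hcon
          push Not at hcon
          exact hφ1 (MonoidHom.ext hcon)
        have hterm : ∀ j ∈ R.J, R.ρ κ ν ψ j.1 j.2 * (starRingEnd ℂ) (R.ρ κ ν ψ' j.1 j.2) =
            ((φ (cl (R.b j.1 j.2 : Ideal (𝓞 K))) : ℂˣ) : ℂ) := by
          intro j hj
          have hV := hJ j hj
          unfold DD.ρ
          rw [rtr_mul hTYR κ ν ψ ψ' (R.b j.1) (R.α j.1) (R.β j.1) j.2 (hlv j.1 j.2 hV),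
            hφ _ (hpr j.1 j.2 hV)]
          have h1 := h'.abs _ (hpr j.1 j.2 hV)
          have h2 : ψ' (R.b j.1 j.2 : Ideal (𝓞 K)) *
              (starRingEnd ℂ) (ψ' (R.b j.1 j.2 : Ideal (𝓞 K))) = 1 := by
            rw [Complex.mul_conj, Complex.normSq_eq_norm_sq, h1]
            simp
          calc ψ' (R.b j.1 j.2 : Ideal (𝓞 K)) * ((φ (cl (R.b j.1 j.2 : Ideal (𝓞 K))) : ℂˣ) : ℂ) *
              (starRingEnd ℂ) (ψ' (R.b j.1 j.2 : Ideal (𝓞 K)))
              = ((φ (cl (R.b j.1 j.2 : Ideal (𝓞 K))) : ℂˣ) : ℂ) *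
                (ψ' (R.b j.1 j.2 : Ideal (𝓞 K)) *
                  (starRingEnd ℂ) (ψ' (R.b j.1 j.2 : Ideal (𝓞 K)))) := by ring
            _ = _ := by rw [h2, mul_one]
        rw [Finset.sum_congr rfl hterm]
        obtain ⟨M, hM, hcnt⟩ := hCNTr K D f σ σ' hK hf R
        obtain ⟨hfb, hsu⟩ := hFBRr K D f σ σ' hK hf R G cl hG
        have hfib : ∀ g : G, (R.J.filter
            (fun j => cl (R.b j.1 j.2 : Ideal (𝓞 K)) = g)).card = M := by
          intro g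
          obtain ⟨c₀, V₀, hV₀, hg⟩ := hsu g
          rw [← hcnt c₀ V₀ hV₀]
          have himg : R.J.filter (fun j => cl (R.b j.1 j.2 : Ideal (𝓞 K)) = g) =
              ((R.T c₀).filter (fun V' => UP (R.α c₀) (R.β c₀) f V₀ V')).image
                (fun V' => (⟨c₀, V'⟩ : Σ _ : ClassGroup (𝓞 K), ℤ × ℤ)) := by
            ext ⟨c, V⟩
            simp only [Finset.mem_filter, Finset.mem_image]
            constructor
            · rintro ⟨hj, hc⟩
              have hV := hJ _ hj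
              obtain ⟨e1, e2⟩ := (hfb c₀ c V₀ V hV₀ hV).1 (hg.trans hc.symm)
              subst e1
              exact ⟨V, ⟨hV, e2⟩, rfl⟩
            · rintro ⟨V', ⟨hV', hU⟩, he⟩
              obtain ⟨e1, e2⟩ := Sigma.mk.inj_iff.1 he
              subst e1
              have e3 := eq_of_heq e2
              subst e3
              refine ⟨?_, ?_⟩
              · unfold DD.J
                exact Finset.mem_sigma.2 ⟨Finset.mem_univ _, hV'⟩
              · exact ((hfb c₀ c₀ V₀ V' hV₀ hV').2 ⟨rfl, hU⟩).symm.trans hg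
          rw [himg]
          refine Finset.card_image_of_injective _ ?_
          intro a a' haa
          exact eq_of_heq (Sigma.mk.inj_iff.1 haa).2
        have hmain : ∑ j ∈ R.J, ((φ (cl (R.b j.1 j.2 : Ideal (𝓞 K))) : ℂˣ) : ℂ) =
            ∑ g : G, (M : ℂ) * ((φ g : ℂˣ) : ℂ) := by
          rw [← Finset.sum_fiberwise_of_maps_to
            (g := fun j : (Σ _ : ClassGroup (𝓞 K), ℤ × ℤ) => cl (R.b j.1 j.2 : Ideal (𝓞 K)))
            (t := Finset.univ) (fun j _ => Finset.mem_univ _)]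
          refine Finset.sum_congr rfl fun g _ => ?_
          rw [Finset.sum_congr rfl (g := fun _ => ((φ g : ℂˣ) : ℂ))
            (fun j hj => by rw [(Finset.mem_filter.1 hj).2])]
          rw [Finset.sum_const, hfib g, nsmul_eq_mul]
        rw [hmain, ← Finset.mul_sum]
        have hz : ∑ g : G, ((φ g : ℂˣ) : ℂ) = 0 := by
          have h1 : ∑ g : G, ((φ g : ℂˣ) : ℂ) = ((φ g₀ : ℂˣ) : ℂ) * ∑ g : G, ((φ g : ℂˣ) : ℂ) := by
            rw [Finset.mul_sum]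
            rw [← Equiv.sum_comp (Equiv.mulLeft g₀)]
            refine Finset.sum_congr rfl fun g _ => ?_
            rw [Equiv.coe_mulLeft, map_mul, Units.val_mul]
          have h2 : (1 - ((φ g₀ : ℂˣ) : ℂ)) * ∑ g : G, ((φ g : ℂˣ) : ℂ) = 0 := by
            rw [sub_mul, one_mul, ← h1, sub_self]
          rcases mul_eq_zero.1 h2 with h3 | h3
          · exact absurd (Units.ext (sub_eq_zero.1 h3).symm) hg₀
          · exact h3
        rw [hz, mul_zero]
      rw [hsum, zero_mul]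
    · have h1 := (hLC1r K σ σ' f κ ν ψ h).2.2 D R.η hK R.un
      have h2 := (hLC1r K σ σ' f κ ν' ψ' h').2.2 D R.η hK R.un
      have h3 : ∫ τ in (0 : ℝ)..R.P,
          Complex.exp (-((((ν - ν') * τ : ℝ) : ℂ) * Complex.I)) = 0 := int_zero hν h1 h2
      rw [h3, mul_zero]

end Pool.Agent.H66.DF
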